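import Pool.Agent.PNI.Base

set_option autoImplicit false

/-!
# A two-dimensional complex space whose polynomial numerical indices do not tend to zero or one

The space is the space of zero-sum vectors of complex `ℓ_∞^3`.
-/

namespace Pool.Agent.Results.MP_6eb165_an.TwoDimensional

open Filter Topology

/-- The norm of the homogeneous polynomial `x ↦ A (x, ..., x)`: the supremum of its norm over the
closed unit ball. -/
noncomputable def polyNorm {X : Type} [NormedAddCommGroup X] [NormedSpace ℂ X] {k : ℕ}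
    (A : ContinuousMultilinearMap ℂ (fun _ : Fin k => X) X) : ℝ :=
  sSup {t : ℝ | ∃ x : X, ‖x‖ ≤ 1 ∧ t = ‖A (fun _ => x)‖}

/-- The numerical radius of the homogeneous polynomial `x ↦ A (x, ..., x)`. -/
noncomputable def numericalRadius {X : Type} [NormedAddCommGroup X] [NormedSpace ℂ X] {k : ℕ}
    (A : ContinuousMultilinearMap ℂ (fun _ : Fin k => X) X) : ℝ :=
  sSup {t : ℝ | ∃ (x : X) (φ : X →L[ℂ] ℂ), ‖x‖ = 1 ∧ ‖φ‖ = 1 ∧ φ x = 1 ∧ t = ‖φ (A (fun _ => x))‖}

/-- The polynomial numerical index of order `k`: the infimum of the numerical radii of the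
continuous `k`-homogeneous polynomials of norm one. -/
noncomputable def polyIndex (X : Type) [NormedAddCommGroup X] [NormedSpace ℂ X] (k : ℕ) : ℝ :=
  sInf {v : ℝ | ∃ A : ContinuousMultilinearMap ℂ (fun _ : Fin k => X) X,
    polyNorm A = 1 ∧ v = numericalRadius A}

section

open Pointwise

variable {X : Type} [NormedAddCommGroup X] [NormedSpace ℂ X] {k : ℕ}
  (A : ContinuousMultilinearMap ℂ (fun _ : Fin k => X) X)

private theorem bound {x : X} (hx : ‖x‖ ≤ 1) : ‖A (fun _ => x)‖ ≤ ‖A‖ := by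
  calc ‖A (fun _ => x)‖ ≤ ‖A‖ * ∏ _i : Fin k, ‖x‖ := A.le_opNorm _
    _ ≤ ‖A‖ * 1 := by
        refine mul_le_mul_of_nonneg_left ?_ (norm_nonneg _)
        exact Finset.prod_le_one (fun _ _ => norm_nonneg _) (fun _ _ => hx)
    _ = ‖A‖ := mul_one _

private theorem le_polyNorm {x : X} (hx : ‖x‖ ≤ 1) : ‖A (fun _ => x)‖ ≤ polyNorm A := by
  refine le_csSup ⟨‖A‖, ?_⟩ ⟨x, hx, rfl⟩
  rintro t ⟨y, hy, rfl⟩
  exact bound A hy

private theorem polyNorm_nonneg : 0 ≤ polyNorm A := by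
  have h := le_polyNorm A (x := 0) (by simp)
  exact (norm_nonneg _).trans h

private theorem smul_polyNorm (c : ℝ) (hc : 0 ≤ c) : polyNorm ((c : ℂ) • A) = c * polyNorm A := by
  have he : {t : ℝ | ∃ x : X, ‖x‖ ≤ 1 ∧ t = ‖((c : ℂ) • A) (fun _ => x)‖} =
      c • {t : ℝ | ∃ x : X, ‖x‖ ≤ 1 ∧ t = ‖A (fun _ => x)‖} := by
    ext t
    rw [Set.mem_smul_set]
    constructor
    · rintro ⟨x, hx, rfl⟩
      refine ⟨_, ⟨x, hx, rfl⟩, ?_⟩
      show c * _ = _
      rw [smul_apply, norm_smul, Complex.norm_real, Real.norm_of_nonneg hc]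
    · rintro ⟨s, ⟨x, hx, rfl⟩, rfl⟩
      refine ⟨x, hx, ?_⟩
      show c * _ = _
      rw [smul_apply, norm_smul, Complex.norm_real, Real.norm_of_nonneg hc]
  unfold polyNorm
  rw [he, Real.sSup_smul_of_nonneg hc, smul_eq_mul]

private theorem smul_numericalRadius (c : ℝ) (hc : 0 ≤ c) :
    numericalRadius ((c : ℂ) • A) = c * numericalRadius A := by
  have he : {t : ℝ | ∃ (x : X) (φ : X →L[ℂ] ℂ), ‖x‖ = 1 ∧ ‖φ‖ = 1 ∧ φ x = 1 ∧
      t = ‖φ (((c : ℂ) • A) (fun _ => x))‖} = c • {t : ℝ | ∃ (x : X) (φ : X →L[ℂ] ℂ), ‖x‖ = 1 ∧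
      ‖φ‖ = 1 ∧ φ x = 1 ∧ t = ‖φ (A (fun _ => x))‖} := by
    ext t
    rw [Set.mem_smul_set]
    constructor
    · rintro ⟨x, φ, hx, h1, h2, rfl⟩
      refine ⟨_, ⟨x, φ, hx, h1, h2, rfl⟩, ?_⟩
      show c * _ = _
      rw [smul_apply, map_smul, norm_smul, Complex.norm_real,
        Real.norm_of_nonneg hc]
    · rintro ⟨s, ⟨x, φ, hx, h1, h2, rfl⟩, rfl⟩
      refine ⟨x, φ, hx, h1, h2, ?_⟩
      show c * _ = _
      rw [smul_apply, map_smul, norm_smul, Complex.norm_real,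
        Real.norm_of_nonneg hc]
  unfold numericalRadius
  rw [he, Real.sSup_smul_of_nonneg hc, smul_eq_mul]

private theorem numericalRadius_nonneg : 0 ≤ numericalRadius A := by
  refine Real.sSup_nonneg ?_
  rintro t ⟨x, φ, _, _, _, rfl⟩
  exact norm_nonneg _

end

private theorem nr_eq (k : ℕ) (A : ContinuousMultilinearMap ℂ (fun _ : Fin k => PNI.X0) PNI.X0) :
    PNI.nr k A = numericalRadius A := by
  unfold PNI.nr numericalRadius
  rw [iSup]
  congr 1
  ext t
  constructor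
  · rintro ⟨⟨⟨x, φ⟩, h1, h2, h3⟩, rfl⟩
    exact ⟨x, φ, h1, h2, h3, rfl⟩
  · rintro ⟨x, φ, h1, h2, h3, rfl⟩
    exact ⟨⟨⟨x, φ⟩, h1, h2, h3⟩, rfl⟩

private theorem index_eq (k : ℕ) : polyIndex PNI.X0 (k + 1) = sSup (PNI.SS (k + 1)) := by
  set V : Set ℝ := {v : ℝ | ∃ A : ContinuousMultilinearMap ℂ (fun _ : Fin (k + 1) => PNI.X0) PNI.X0,
    polyNorm A = 1 ∧ v = numericalRadius A} with hV
  have hbdd : BddBelow V := by
    refine ⟨0, ?_⟩
    rintro v ⟨A, _, rfl⟩
    exact numericalRadius_nonneg A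
  have hne : V.Nonempty := by
    by_contra hcon
    have h0 : ∀ A : ContinuousMultilinearMap ℂ (fun _ : Fin (k + 1) => PNI.X0) PNI.X0,
        polyNorm A = 0 := by
      intro A
      by_contra hA
      refine hcon ⟨_, (((polyNorm A)⁻¹ : ℝ) : ℂ) • A, ?_, rfl⟩
      rw [smul_polyNorm A _ (inv_nonneg.2 (polyNorm_nonneg A)), inv_mul_cancel₀ hA]
    have h1 : (1 : ℝ) ∈ PNI.SS (k + 1) := by
      refine ⟨zero_le_one, fun A y hy => ?_⟩
      have h2 := le_polyNorm A hy
      rw [h0 A] at h2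
      have h3 : ‖A (fun _ => y)‖ = 0 := le_antisymm h2 (norm_nonneg _)
      rw [h3, mul_zero]
      exact PNI.nr_nonneg _ A
    have h4 := PNI.SS_le k 1 h1
    have h5 := PNI.sqrt3_lt
    linarith
  have hmem : polyIndex PNI.X0 (k + 1) ∈ PNI.SS (k + 1) := by
    have hnn : 0 ≤ polyIndex PNI.X0 (k + 1) := by
      refine Real.sInf_nonneg ?_
      rintro v ⟨A, _, rfl⟩
      exact numericalRadius_nonneg A
    refine ⟨hnn, fun A y hy => ?_⟩
    rw [nr_eq]
    have h2 := le_polyNorm A hy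
    by_cases hA : polyNorm A = 0
    · rw [hA] at h2
      have h3 : ‖A (fun _ => y)‖ = 0 := le_antisymm h2 (norm_nonneg _)
      rw [h3, mul_zero]
      exact numericalRadius_nonneg A
    · have hpos : 0 < polyNorm A := lt_of_le_of_ne (polyNorm_nonneg A) (Ne.symm hA)
      have h3 : polyIndex PNI.X0 (k + 1) ≤ (polyNorm A)⁻¹ * numericalRadius A := by
        refine csInf_le hbdd ⟨(((polyNorm A)⁻¹ : ℝ) : ℂ) • A, ?_, ?_⟩
        · rw [smul_polyNorm A _ (inv_nonneg.2 hpos.le), inv_mul_cancel₀ hA]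
        · rw [smul_numericalRadius A _ (inv_nonneg.2 hpos.le)]
      calc polyIndex PNI.X0 (k + 1) * ‖A (fun _ => y)‖
          ≤ ((polyNorm A)⁻¹ * numericalRadius A) * polyNorm A :=
            mul_le_mul h3 h2 (norm_nonneg _)
              (mul_nonneg (inv_nonneg.2 hpos.le) (numericalRadius_nonneg A))
        _ = numericalRadius A := by
            field_simp
  refine (IsGreatest.csSup_eq (a := polyIndex PNI.X0 (k + 1)) ⟨hmem, ?_⟩).symm
  rintro c ⟨hc, h⟩
  refine le_csInf hne ?_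
  rintro v ⟨A, hA, rfl⟩
  rw [← nr_eq]
  have h1 : c * polyNorm A ≤ PNI.nr (k + 1) A := by
    by_cases hc0 : c = 0
    · rw [hc0, zero_mul]
      exact PNI.nr_nonneg _ A
    have hcp : 0 < c := lt_of_le_of_ne hc (Ne.symm hc0)
    have h2 : polyNorm A ≤ PNI.nr (k + 1) A / c := by
      refine csSup_le ⟨_, 0, by simp, rfl⟩ ?_
      rintro t ⟨y, hy, rfl⟩
      rw [le_div_iff₀ hcp, mul_comm]
      exact h A y hy
    rwa [le_div_iff₀ hcp, mul_comm] at h2
  rwa [hA, mul_one] at h1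

/-- There is a two-dimensional complex Banach space whose polynomial numerical indices of order `k`
converge, as `k` tends to infinity, to a limit between `1/2` and `√3/2`. -/
theorem result :
    ∃ (X : Type) (_ : NormedAddCommGroup X) (_ : NormedSpace ℂ X) (_ : CompleteSpace X) (L : ℝ),
      Module.finrank ℂ X = 2 ∧ Tendsto (fun k : ℕ => polyIndex X k) atTop (𝓝 L) ∧
        1 / 2 ≤ L ∧ L ≤ Real.sqrt 3 / 2 := by
  obtain ⟨L, hL, h1, h2⟩ := PNI.tends
  refine ⟨PNI.X0, inferInstance, inferInstance, FiniteDimensional.complete ℂ PNI.X0, L, ?_, ?_, h1, h2⟩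
  · let f : (Fin 3 → ℂ) →ₗ[ℂ] ℂ := ∑ i, LinearMap.proj i
    have hf : ∀ v : Fin 3 → ℂ, f v = v 0 + v 1 + v 2 := by
      intro v
      simp [f, Fin.sum_univ_three]
    have hk : LinearMap.ker f = PNI.X0 := by
      ext v
      rw [LinearMap.mem_ker, hf]
      rfl
    have hr : LinearMap.range f = ⊤ := by
      rw [LinearMap.range_eq_top]
      intro c
      refine ⟨![c, 0, 0], ?_⟩
      rw [hf]
      simp
    have h3 := LinearMap.finrank_range_add_finrank_ker f
    rw [hr, hk, finrank_top, Module.finrank_self, Module.finrank_fin_fun] at h3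
    omega
  · rw [← tendsto_add_atTop_iff_nat 1]
    simp only [index_eq]
    exact (tendsto_add_atTop_iff_nat 1).2 hL

end Pool.Agent.Results.MP_6eb165_an.TwoDimensional
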